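import Pool.Agent.W875.GE.Spec

/-! Project GE (helper875), Part R: the rational representation. -/

set_option autoImplicit false

namespace W101.GE

open TensorProduct MulOpposite W875.GE

universe u

theorem tensor_indep {K : Type u} [Field K] {A B : Type u} [AddCommGroup A] [Module K A]
    [AddCommGroup B] [Module K B] {r : ℕ} (v : Fin r → A) (hv : LinearIndependent K v)
    (x y : Fin r → B) (h : ∑ m, v m ⊗ₜ[K] x m = ∑ m, v m ⊗ₜ[K] y m) (m : Fin r) :
    x m = y m := by
  classical
  obtain ⟨g, hg⟩ := LinearMap.exists_leftInverse_of_injective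
    (Finsupp.linearCombination K v) (linearIndependent_iff.mp hv |> fun h => by
      rw [LinearMap.ker_eq_bot']; exact h)
  have hgv : ∀ l, g (v l) = Finsupp.single l 1 := by
    intro l
    have := LinearMap.congr_fun hg (Finsupp.single l 1)
    simpa [Finsupp.linearCombination_single] using this
  have h2 := congrArg (fun z => TensorProduct.lid K B
    (((Finsupp.lapply m ∘ₗ g : A →ₗ[K] K)).rTensor B z)) h
  simpa [map_sum, LinearMap.rTensor_tmul, hgv, Finsupp.single_apply, ite_smul] using h2

theorem partR : W875.GE.PartR.{u} := by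
  intro K _ n θ hθ D hco hL hR r v q hv hx hD
  classical
  -- coassociativity
  have hDq : ∀ i k m p, D i (q k m p) = ∑ l, q k l p ⊗ₜ[K] q i m l := by
    intro i k m p
    have h := LinearMap.congr_fun (hco i k) (v m)
    simp only [LinearMap.comp_apply, hD, map_sum, LinearMap.rTensor_tmul, LinearMap.lTensor_tmul,
      LinearEquiv.coe_coe, TensorProduct.sum_tmul, TensorProduct.assoc_tmul] at h
    rw [Finset.sum_comm] at h
    simp only [← TensorProduct.tmul_sum] at h
    exact (tensor_indep v hv _ _ h p).symm
  have hq : ∀ i k m, q i k m = algebraMap K (FA K n) (eps K n (q i k m)) +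
      ∑ j, θ (FreeAlgebra.ι K j) * ∑ l, eps K n (q i l m) • q j k l := by
    intro i k m
    have h := hR (q i k m)
    simpa only [hDq, map_sum, LinearMap.rTensor_tmul, TensorProduct.lid_tmul,
      AlgHom.toLinearMap_apply] using h
  have hvk : ∀ k, v k = algebraMap K (FA K n) (eps K n (v k)) +
      ∑ j, (∑ l, eps K n (q j k l) • v l) * θ (FreeAlgebra.ι K j) := by
    intro k
    have h := hL (v k)
    simpa only [hD, map_sum, LinearMap.lTensor_tmul, TensorProduct.rid_tmul,
      AlgHom.toLinearMap_apply] using h
  let M : Fin n → Matrix (Fin r) (Fin r) K := fun i => Matrix.of fun m l => eps K n (q i l m)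
  let T : Matrix (Fin r) (Fin r) (FA K n) := Matrix.of fun m k =>
    (if m = k then (1 : FA K n) else 0) + ∑ j, θ (FreeAlgebra.ι K j) * q j k m
  have hqT : ∀ i k m, q i k m = ∑ l, eps K n (q i l m) • T l k := by
    intro i k m
    have h1 : ∑ l, eps K n (q i l m) • T l k =
        algebraMap K (FA K n) (eps K n (q i k m)) +
        ∑ j, θ (FreeAlgebra.ι K j) * ∑ l, eps K n (q i l m) • q j k l := by
      simp only [T, Matrix.of_apply, smul_add, Finset.sum_add_distrib, Finset.smul_sum,
        Finset.mul_sum]
      congr 1
      · simp [Algebra.algebraMap_eq_smul_one]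
      · rw [Finset.sum_comm]
        simp
    rw [h1]; exact hq i k m
  refine ⟨M, T, ?_, ?_⟩
  · rw [sub_mul, one_mul, Finset.sum_mul, sub_eq_iff_eq_add]
    ext m k
    rw [Matrix.add_apply, Matrix.sum_apply, Matrix.one_apply]
    simp only [T, Matrix.of_apply]
    congr 1
    refine Finset.sum_congr rfl fun j _ => ?_
    rw [Matrix.mul_apply, hqT j k m, Finset.mul_sum]
    refine Finset.sum_congr rfl fun l _ => ?_
    simp only [M, Matrix.map_apply, Matrix.of_apply, mul_smul_comm, smul_mul_assoc]
    rfl
  · rintro ⟨N, hN⟩ i
    let Lin : (Fin r → K) → FA K n := fun c => ∑ k, c k • v k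
    have hLin : ∀ c : Fin r → K, Lin c = algebraMap K (FA K n) (eps K n (Lin c)) +
        ∑ j, Lin ((M j).mulVec c) * θ (FreeAlgebra.ι K j) := by
      intro c
      have h1 : Lin c = ∑ k, c k • (algebraMap K (FA K n) (eps K n (v k)) +
          ∑ j, (∑ l, eps K n (q j k l) • v l) * θ (FreeAlgebra.ι K j)) := by
        refine Finset.sum_congr rfl fun k _ => ?_
        rw [← hvk k]
      conv_lhs => rw [h1]
      simp only [smul_add, Finset.sum_add_distrib]
      congr 1
      · simp only [Lin, map_sum, map_smul, smul_eq_mul, map_mul]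
        refine Finset.sum_congr rfl fun k _ => ?_
        rw [Algebra.smul_def]
      · simp only [Lin, Matrix.mulVec, dotProduct, Finset.smul_sum, Finset.sum_mul,
          Finset.sum_smul]
        rw [Finset.sum_comm]
        refine Finset.sum_congr rfl fun j _ => ?_
        rw [Finset.sum_comm]
        refine Finset.sum_congr rfl fun l _ => ?_
        refine Finset.sum_congr rfl fun k _ => ?_
        simp only [M, Matrix.of_apply, smul_mul_assoc, smul_smul, mul_comm]
    have key : ∀ (N : ℕ) (c : Fin r → K),
        (∀ w : List (Fin n), w.length = N → (wd M w).mulVec c = 0) → Lin c ∈ θ.range := by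
      intro N
      induction N with
      | zero =>
        intro c hc
        have h := hc [] rfl
        simp only [wd, List.map_nil, List.prod_nil, Matrix.one_mulVec] at h
        subst h
        simp [Lin]
      | succ N ih =>
        intro c hc
        rw [hLin c]
        refine add_mem (Subalgebra.algebraMap_mem _ _) (sum_mem fun j _ => mul_mem ?_ ⟨_, rfl⟩)
        refine ih _ fun w hw => ?_
        have h := hc (w ++ [j]) (by simp [hw])
        rw [Matrix.mulVec_mulVec]
        simpa [wd] using h
    obtain ⟨c, hc⟩ := (Submodule.mem_span_range_iff_exists_fun K).mp (hx i)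
    rw [← hc]
    exact key N c fun w hw => by rw [hN w hw, Matrix.zero_mulVec]

end W101.GE
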